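import Pool.Agent.W978.QM.Stm

/-!
# Project QM, part SM2: for a smooth divisor the hyperdeterminants are not identically zero
-/

set_option autoImplicit false

namespace Pool.Agent.W397.QM

open Pool.Agent.W978.QM

/-! ### elementary algebra over the complex numbers -/

theorem quad_zero (a b c : ℂ) : ∃ x y : ℂ, (x ≠ 0 ∨ y ≠ 0) ∧
    a * x ^ 2 + b * (x * y) + c * y ^ 2 = 0 := by
  by_cases ha : a = 0
  · exact ⟨1, 0, Or.inl one_ne_zero, by rw [ha]; ring⟩
  · obtain ⟨z, hz⟩ := IsAlgClosed.exists_pow_nat_eq (b ^ 2 - 4 * a * c) (n := 2) (by norm_num)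
    refine ⟨-b + z, 2 * a, Or.inr (mul_ne_zero two_ne_zero ha), ?_⟩
    linear_combination a * hz

theorem quartic_zero (c0 c1 c2 c3 c4 : ℂ) : ∃ x y : ℂ, (x ≠ 0 ∨ y ≠ 0) ∧
    c4 * x ^ 4 + c3 * x ^ 3 * y + c2 * x ^ 2 * y ^ 2 + c1 * x * y ^ 3 + c0 * y ^ 4 = 0 := by
  by_cases h4 : c4 = 0
  · exact ⟨1, 0, Or.inl one_ne_zero, by rw [h4]; ring⟩
  · set f : Polynomial ℂ := Polynomial.C c4 * Polynomial.X ^ 4 + (Polynomial.C c3 *
      Polynomial.X ^ 3 + Polynomial.C c2 * Polynomial.X ^ 2 + Polynomial.C c1 * Polynomial.X +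
      Polynomial.C c0) with hf
    have hdeg : f.natDegree = 4 := by
      rw [hf]
      compute_degree!
    obtain ⟨x, hx⟩ := IsAlgClosed.exists_root f (by
      intro h0
      have h1 := Polynomial.natDegree_eq_of_degree_eq_some h0
      rw [hdeg] at h1
      norm_num at h1)
    refine ⟨x, 1, Or.inr one_ne_zero, ?_⟩
    have h2 : f.eval x = 0 := hx
    rw [hf] at h2
    simp only [Polynomial.eval_add, Polynomial.eval_mul, Polynomial.eval_C, Polynomial.eval_pow,
      Polynomial.eval_X] at h2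
    linear_combination h2

theorem crit (A B C : ℂ) (h : B ^ 2 - 4 * A * C = 0) : ∃ x y : ℂ, (x ≠ 0 ∨ y ≠ 0) ∧
    2 * A * x + B * y = 0 ∧ B * x + 2 * C * y = 0 := by
  by_cases hA : A = 0
  · refine ⟨1, 0, Or.inl one_ne_zero, by rw [hA]; ring, ?_⟩
    rw [hA] at h
    have hB : B ^ 2 = 0 := by linear_combination h
    rw [pow_eq_zero_iff two_ne_zero] at hB
    rw [hB]
    ring
  · exact ⟨B, -2 * A, Or.inr (mul_ne_zero (by norm_num) hA), by ring, by linear_combination h⟩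

theorem ker (α β γ δ : ℂ) (h : α * δ - β * γ = 0) : ∃ x y : ℂ, (x ≠ 0 ∨ y ≠ 0) ∧
    α * x + β * y = 0 ∧ γ * x + δ * y = 0 := by
  by_cases h1 : α = 0 ∧ β = 0
  · obtain ⟨hα, hβ⟩ := h1
    by_cases h2 : γ = 0 ∧ δ = 0
    · exact ⟨1, 0, Or.inl one_ne_zero, by rw [hα]; ring, by rw [h2.1]; ring⟩
    · refine ⟨-δ, γ, ?_, by rw [hα, hβ]; ring, by ring⟩
      by_contra hcon
      push Not at hcon
      exact h2 ⟨hcon.2, neg_eq_zero.1 hcon.1⟩
  · refine ⟨-β, α, ?_, by ring, by linear_combination h⟩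
    by_contra hcon
    push Not at hcon
    exact h1 ⟨hcon.2, neg_eq_zero.1 hcon.1⟩

theorem ne_of (x y : ℂ) (h : x ≠ 0 ∨ y ≠ 0) : (![x, y] : Fin 2 → ℂ) ≠ 0 := by
  intro h0
  have e0 := congrFun h0 0
  have e1 := congrFun h0 1
  simp only [Matrix.cons_val_zero, Matrix.cons_val_one, Pi.zero_apply] at e0 e1
  rcases h with h | h
  · exact h e0
  · exact h e1

theorem indep (p : Fin 2 → ℂ) (hp : p ≠ 0) : ∃ v : Fin 2 → ℂ, ∀ α β : ℂ,
    α * p 0 + β * p 1 = 0 → α * v 0 + β * v 1 = 0 → α = 0 ∧ β = 0 := by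
  by_cases h0 : p 0 = 0
  · have h1 : p 1 ≠ 0 := by
      intro h1
      apply hp
      funext i
      fin_cases i
      · exact h0
      · exact h1
    refine ⟨![1, 0], fun α β h2 h3 => ?_⟩
    simp only [Matrix.cons_val_zero, Matrix.cons_val_one, mul_one, mul_zero, add_zero] at h3
    rw [h3, zero_mul, zero_add] at h2
    exact ⟨h3, (mul_eq_zero.1 h2).resolve_right h1⟩
  · refine ⟨![0, 1], fun α β h2 h3 => ?_⟩
    simp only [Matrix.cons_val_zero, Matrix.cons_val_one, mul_one, mul_zero, zero_add] at h3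
    rw [h3, zero_mul, add_zero] at h2
    exact ⟨(mul_eq_zero.1 h2).resolve_right h0, h3⟩

/-- A singular `2 × 2` matrix which is not zero. -/
theorem rank_one (a b c d : ℂ) (hdet : a * d - b * c = 0)
    (hne : ¬ (a = 0 ∧ b = 0 ∧ c = 0 ∧ d = 0)) :
    ∃ r s : Fin 2 → ℂ, r ≠ 0 ∧ s ≠ 0 ∧ a * s 0 + b * s 1 = 0 ∧ c * s 0 + d * s 1 = 0 ∧
      a * r 0 + c * r 1 = 0 ∧ b * r 0 + d * r 1 = 0 ∧
      ∀ n00 n01 n10 n11 : ℂ, a * n11 + d * n00 - b * n10 - c * n01 = 0 →
        n00 * (r 0 * s 0) + n01 * (r 0 * s 1) + n10 * (r 1 * s 0) + n11 * (r 1 * s 1) = 0 := by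
  by_cases hd : d = 0
  · by_cases hb : b = 0
    · by_cases hc : c = 0
      · have ha : a ≠ 0 := fun ha => hne ⟨ha, hb, hc, hd⟩
        refine ⟨![-c, a], ![-b, a], ne_of _ _ (Or.inr ha), ne_of _ _ (Or.inr ha), ?_, ?_, ?_, ?_, ?_⟩
        · simp only [Matrix.cons_val_zero, Matrix.cons_val_one]; ring
        · simp only [Matrix.cons_val_zero, Matrix.cons_val_one]; linear_combination hdet
        · simp only [Matrix.cons_val_zero, Matrix.cons_val_one]; ring
        · simp only [Matrix.cons_val_zero, Matrix.cons_val_one]; linear_combination hdet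
        · intro n00 n01 n10 n11 h
          simp only [Matrix.cons_val_zero, Matrix.cons_val_one]
          linear_combination a * h - n00 * hdet
      · refine ⟨![-c, a], ![d, -c], ne_of _ _ (Or.inl (neg_ne_zero.2 hc)),
          ne_of _ _ (Or.inr (neg_ne_zero.2 hc)), ?_, ?_, ?_, ?_, ?_⟩
        · simp only [Matrix.cons_val_zero, Matrix.cons_val_one]; linear_combination hdet
        · simp only [Matrix.cons_val_zero, Matrix.cons_val_one]; ring
        · simp only [Matrix.cons_val_zero, Matrix.cons_val_one]; ring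
        · simp only [Matrix.cons_val_zero, Matrix.cons_val_one]; linear_combination hdet
        · intro n00 n01 n10 n11 h
          simp only [Matrix.cons_val_zero, Matrix.cons_val_one]
          linear_combination -c * h + n10 * hdet
    · refine ⟨![d, -b], ![-b, a], ne_of _ _ (Or.inr (neg_ne_zero.2 hb)),
        ne_of _ _ (Or.inl (neg_ne_zero.2 hb)), ?_, ?_, ?_, ?_, ?_⟩
      · simp only [Matrix.cons_val_zero, Matrix.cons_val_one]; ring
      · simp only [Matrix.cons_val_zero, Matrix.cons_val_one]; linear_combination hdet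
      · simp only [Matrix.cons_val_zero, Matrix.cons_val_one]; linear_combination hdet
      · simp only [Matrix.cons_val_zero, Matrix.cons_val_one]; ring
      · intro n00 n01 n10 n11 h
        simp only [Matrix.cons_val_zero, Matrix.cons_val_one]
        linear_combination -b * h + n01 * hdet
  · refine ⟨![d, -b], ![d, -c], ne_of _ _ (Or.inl hd), ne_of _ _ (Or.inl hd), ?_, ?_, ?_, ?_, ?_⟩
    · simp only [Matrix.cons_val_zero, Matrix.cons_val_one]; linear_combination hdet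
    · simp only [Matrix.cons_val_zero, Matrix.cons_val_one]; ring
    · simp only [Matrix.cons_val_zero, Matrix.cons_val_one]; linear_combination hdet
    · simp only [Matrix.cons_val_zero, Matrix.cons_val_one]; ring
    · intro n00 n01 n10 n11 h
      simp only [Matrix.cons_val_zero, Matrix.cons_val_one]
      linear_combination d * h - n11 * hdet

/-! ### the matrices -/

/-- The matrix in the last two arguments. -/
def mt (b : Fin 2 → Fin 2 → Fin 2 → Fin 2 → ℂ) (p q : Fin 2 → ℂ) (k l : Fin 2) : ℂ :=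
  ∑ i, ∑ j, b i j k l * p i * q j

/-- Its determinant. -/
def DD (b : Fin 2 → Fin 2 → Fin 2 → Fin 2 → ℂ) (p q : Fin 2 → ℂ) : ℂ :=
  mt b p q 0 0 * mt b p q 1 1 - mt b p q 0 1 * mt b p q 1 0

variable (b : Fin 2 → Fin 2 → Fin 2 → Fin 2 → ℂ)

theorem cf_eq (p q r s : Fin 2 → ℂ) : cf b p q r s =
    mt b p q 0 0 * (r 0 * s 0) + mt b p q 0 1 * (r 0 * s 1) + mt b p q 1 0 * (r 1 * s 0) +
      mt b p q 1 1 * (r 1 * s 1) := by
  unfold cf mt
  simp only [Fin.sum_univ_two]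
  ring

theorem cf_bv (p q : Fin 2 → ℂ) (u v : Fin 2) : cf b p q (bv u) (bv v) = mt b p q u v := by
  rw [cf_eq]
  unfold bv
  fin_cases u <;> fin_cases v <;> simp

theorem mt_p (p q : Fin 2 → ℂ) (k l : Fin 2) :
    mt b p q k l = p 0 * mt b (bv 0) q k l + p 1 * mt b (bv 1) q k l := by
  unfold mt bv
  simp [Fin.sum_univ_two]
  ring

theorem mt_q (p q : Fin 2 → ℂ) (k l : Fin 2) :
    mt b p q k l = q 0 * mt b p (bv 0) k l + q 1 * mt b p (bv 1) k l := by
  unfold mt bv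
  simp [Fin.sum_univ_two]
  ring

theorem bv_sum (i : Fin 2) : (bv 0 + bv 1 : Fin 2 → ℂ) i = 1 := by
  unfold bv
  fin_cases i <;> simp

theorem mt_p1 (q : Fin 2 → ℂ) (k l : Fin 2) :
    mt b (bv 0 + bv 1) q k l = mt b (bv 0) q k l + mt b (bv 1) q k l := by
  rw [mt_p, bv_sum, bv_sum, one_mul, one_mul]

theorem mt_q1 (p : Fin 2 → ℂ) (k l : Fin 2) :
    mt b p (bv 0 + bv 1) k l = mt b p (bv 0) k l + mt b p (bv 1) k l := by
  rw [mt_q, bv_sum, bv_sum, one_mul, one_mul]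

/-- The middle coefficient in `p`. -/
def Bp (q : Fin 2 → ℂ) : ℂ := DD b (bv 0 + bv 1) q - DD b (bv 0) q - DD b (bv 1) q

/-- The middle coefficient in `q`. -/
def Bq (p : Fin 2 → ℂ) : ℂ := DD b p (bv 0 + bv 1) - DD b p (bv 0) - DD b p (bv 1)

theorem DD_p (p q : Fin 2 → ℂ) : DD b p q =
    DD b (bv 0) q * p 0 ^ 2 + Bp b q * (p 0 * p 1) + DD b (bv 1) q * p 1 ^ 2 := by
  unfold Bp DD
  simp only [mt_p1]
  rw [mt_p b p q 0 0, mt_p b p q 1 1, mt_p b p q 0 1, mt_p b p q 1 0]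
  ring

theorem DD_q (p q : Fin 2 → ℂ) : DD b p q =
    DD b p (bv 0) * q 0 ^ 2 + Bq b p * (q 0 * q 1) + DD b p (bv 1) * q 1 ^ 2 := by
  unfold Bq DD
  simp only [mt_q1]
  rw [mt_q b p q 0 0, mt_q b p q 1 1, mt_q b p q 0 1, mt_q b p q 1 0]
  ring

theorem polar_p (p v q : Fin 2 → ℂ) :
    mt b p q 0 0 * mt b v q 1 1 + mt b p q 1 1 * mt b v q 0 0 - mt b p q 0 1 * mt b v q 1 0 -
      mt b p q 1 0 * mt b v q 0 1 =
    v 0 * (2 * DD b (bv 0) q * p 0 + Bp b q * p 1) +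
      v 1 * (Bp b q * p 0 + 2 * DD b (bv 1) q * p 1) := by
  unfold Bp DD
  simp only [mt_p1]
  rw [mt_p b p q 0 0, mt_p b p q 1 1, mt_p b p q 0 1, mt_p b p q 1 0,
    mt_p b v q 0 0, mt_p b v q 1 1, mt_p b v q 0 1, mt_p b v q 1 0]
  ring

theorem polar_q (p q w : Fin 2 → ℂ) :
    mt b p q 0 0 * mt b p w 1 1 + mt b p q 1 1 * mt b p w 0 0 - mt b p q 0 1 * mt b p w 1 0 -
      mt b p q 1 0 * mt b p w 0 1 =
    w 0 * (2 * DD b p (bv 0) * q 0 + Bq b p * q 1) +
      w 1 * (Bq b p * q 0 + 2 * DD b p (bv 1) * q 1) := by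
  unfold Bq DD
  simp only [mt_q1]
  rw [mt_q b p q 0 0, mt_q b p q 1 1, mt_q b p q 0 1, mt_q b p q 1 0,
    mt_q b p w 0 0, mt_q b p w 1 1, mt_q b p w 0 1, mt_q b p w 1 0]
  ring

/-- The discriminant in `p` has a zero. -/
theorem exists_q : ∃ q : Fin 2 → ℂ, q ≠ 0 ∧
    Bp b q ^ 2 - 4 * DD b (bv 0) q * DD b (bv 1) q = 0 := by
  -- coefficients of the three quadratic forms
  set a0 := DD b (bv 0) (bv 0)
  set a1 := Bq b (bv 0)
  set a2 := DD b (bv 0) (bv 1)
  set c0 := DD b (bv 1) (bv 0)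
  set c1 := Bq b (bv 1)
  set c2 := DD b (bv 1) (bv 1)
  set d0 := DD b (bv 0 + bv 1) (bv 0) - a0 - c0
  set d1 := Bq b (bv 0 + bv 1) - a1 - c1
  set d2 := DD b (bv 0 + bv 1) (bv 1) - a2 - c2
  obtain ⟨x, y, hxy, h⟩ := quartic_zero (d2 ^ 2 - 4 * a2 * c2) (2 * d1 * d2 - 4 * (a1 * c2 + a2 * c1))
    (d1 ^ 2 + 2 * d0 * d2 - 4 * (a0 * c2 + a1 * c1 + a2 * c0)) (2 * d0 * d1 - 4 * (a0 * c1 + a1 * c0))
    (d0 ^ 2 - 4 * a0 * c0)
  refine ⟨![x, y], ne_of x y hxy, ?_⟩
  have hA : DD b (bv 0) ![x, y] = a0 * x ^ 2 + a1 * (x * y) + a2 * y ^ 2 := DD_q b _ _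
  have hC : DD b (bv 1) ![x, y] = c0 * x ^ 2 + c1 * (x * y) + c2 * y ^ 2 := DD_q b _ _
  have hB0 : DD b (bv 0 + bv 1) ![x, y] = DD b (bv 0 + bv 1) (bv 0) * x ^ 2 +
      Bq b (bv 0 + bv 1) * (x * y) + DD b (bv 0 + bv 1) (bv 1) * y ^ 2 := DD_q b _ _
  have hB : Bp b ![x, y] = d0 * x ^ 2 + d1 * (x * y) + d2 * y ^ 2 := by
    unfold Bp
    rw [hA, hC, hB0]
    ring
  rw [hA, hC, hB]
  linear_combination h

/-- **A singular point.** -/
theorem core (hdisc : ∀ p : Fin 2 → ℂ, Bq b p ^ 2 - 4 * DD b p (bv 0) * DD b p (bv 1) = 0) :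
    ∃ p q r s : Fin 2 → ℂ, p ≠ 0 ∧ q ≠ 0 ∧ r ≠ 0 ∧ s ≠ 0 ∧ (∀ v, cf b v q r s = 0) ∧
      (∀ v, cf b p v r s = 0) ∧ (∀ v, cf b p q v s = 0) ∧ ∀ v, cf b p q r v = 0 := by
  obtain ⟨q, hq, hE⟩ := exists_q b
  obtain ⟨x, y, hxy, h1, h2⟩ := crit _ _ _ hE
  set p : Fin 2 → ℂ := ![x, y] with hp
  have hp0 : p 0 = x := rfl
  have hp1 : p 1 = y := rfl
  have hpne : p ≠ 0 := ne_of x y hxy
  have hD : DD b p q = 0 := by
    rw [DD_p, hp0, hp1]
    linear_combination (x / 2) * h1 + (y / 2) * h2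
  have hpol1 : ∀ v, mt b p q 0 0 * mt b v q 1 1 + mt b p q 1 1 * mt b v q 0 0 -
      mt b p q 0 1 * mt b v q 1 0 - mt b p q 1 0 * mt b v q 0 1 = 0 := by
    intro v
    rw [polar_p, hp0, hp1, h1, h2]
    ring
  have hD' := hD
  rw [DD_q] at hD'
  have h3 : 2 * DD b p (bv 0) * q 0 + Bq b p * q 1 = 0 := by
    have h5 : (2 * DD b p (bv 0) * q 0 + Bq b p * q 1) ^ 2 = 0 := by
      linear_combination (4 * DD b p (bv 0)) * hD' + q 1 ^ 2 * hdisc p
    exact (pow_eq_zero_iff two_ne_zero).1 h5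
  have h4 : Bq b p * q 0 + 2 * DD b p (bv 1) * q 1 = 0 := by
    have h5 : (Bq b p * q 0 + 2 * DD b p (bv 1) * q 1) ^ 2 = 0 := by
      linear_combination (4 * DD b p (bv 1)) * hD' + q 0 ^ 2 * hdisc p
    exact (pow_eq_zero_iff two_ne_zero).1 h5
  have hpol2 : ∀ w, mt b p q 0 0 * mt b p w 1 1 + mt b p q 1 1 * mt b p w 0 0 -
      mt b p q 0 1 * mt b p w 1 0 - mt b p q 1 0 * mt b p w 0 1 = 0 := by
    intro w
    rw [polar_q, h3, h4]
    ring
  by_cases hM : mt b p q 0 0 = 0 ∧ mt b p q 0 1 = 0 ∧ mt b p q 1 0 = 0 ∧ mt b p q 1 1 = 0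
  · -- the matrix is zero
    obtain ⟨m00, m01, m10, m11⟩ := hM
    obtain ⟨v, hv⟩ := indep p hpne
    obtain ⟨w, hw⟩ := indep q hq
    -- the quadratic form in `r`
    obtain ⟨r0, r1, hr, hr2⟩ := quad_zero
      (mt b v q 0 0 * mt b p w 0 1 - mt b v q 0 1 * mt b p w 0 0)
      (mt b v q 0 0 * mt b p w 1 1 + mt b v q 1 0 * mt b p w 0 1 - mt b v q 0 1 * mt b p w 1 0 -
        mt b v q 1 1 * mt b p w 0 0)
      (mt b v q 1 0 * mt b p w 1 1 - mt b v q 1 1 * mt b p w 1 0)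
    obtain ⟨s0, s1, hs, hs1, hs2⟩ := ker (r0 * mt b v q 0 0 + r1 * mt b v q 1 0)
      (r0 * mt b v q 0 1 + r1 * mt b v q 1 1) (r0 * mt b p w 0 0 + r1 * mt b p w 1 0)
      (r0 * mt b p w 0 1 + r1 * mt b p w 1 1) (by linear_combination hr2)
    have hF0 : ∀ r s, cf b p q r s = 0 := by
      intro r s
      rw [cf_eq, m00, m01, m10, m11]
      ring
    -- linearity
    have hlin1 : ∀ u : Fin 2 → ℂ, cf b u q ![r0, r1] ![s0, s1] =
        cf b (bv 0) q ![r0, r1] ![s0, s1] * u 0 + cf b (bv 1) q ![r0, r1] ![s0, s1] * u 1 := by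
      intro u
      rw [cf_eq, cf_eq, cf_eq, mt_p b u q 0 0, mt_p b u q 0 1, mt_p b u q 1 0, mt_p b u q 1 1]
      ring
    have hlin2 : ∀ u : Fin 2 → ℂ, cf b p u ![r0, r1] ![s0, s1] =
        cf b p (bv 0) ![r0, r1] ![s0, s1] * u 0 + cf b p (bv 1) ![r0, r1] ![s0, s1] * u 1 := by
      intro u
      rw [cf_eq, cf_eq, cf_eq, mt_q b p u 0 0, mt_q b p u 0 1, mt_q b p u 1 0, mt_q b p u 1 1]
      ring
    have hv0 : cf b v q ![r0, r1] ![s0, s1] = 0 := by
      rw [cf_eq]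
      simp only [Matrix.cons_val_zero, Matrix.cons_val_one]
      linear_combination hs1
    have hw0 : cf b p w ![r0, r1] ![s0, s1] = 0 := by
      rw [cf_eq]
      simp only [Matrix.cons_val_zero, Matrix.cons_val_one]
      linear_combination hs2
    refine ⟨p, q, ![r0, r1], ![s0, s1], hpne, hq, ne_of _ _ hr, ne_of _ _ hs, ?_, ?_,
      fun u => hF0 _ _, fun u => hF0 _ _⟩
    · have h5 := hF0 ![r0, r1] ![s0, s1]
      rw [hlin1 p] at h5
      rw [hlin1 v] at hv0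
      obtain ⟨h6, h7⟩ := hv _ _ h5 hv0
      intro u
      rw [hlin1 u, h6, h7]
      ring
    · have h5 := hF0 ![r0, r1] ![s0, s1]
      rw [hlin2 q] at h5
      rw [hlin2 w] at hw0
      obtain ⟨h6, h7⟩ := hw _ _ h5 hw0
      intro u
      rw [hlin2 u, h6, h7]
      ring
  · obtain ⟨r, s, hr, hs, e1, e2, e3, e4, hn⟩ := rank_one (mt b p q 0 0) (mt b p q 0 1)
      (mt b p q 1 0) (mt b p q 1 1) hD hM
    refine ⟨p, q, r, s, hpne, hq, hr, hs, ?_, ?_, ?_, ?_⟩
    · intro v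
      rw [cf_eq]
      exact hn _ _ _ _ (hpol1 v)
    · intro w
      rw [cf_eq]
      exact hn _ _ _ _ (hpol2 w)
    · intro u
      rw [cf_eq]
      linear_combination u 0 * e1 + u 1 * e2
    · intro u
      rw [cf_eq]
      linear_combination u 0 * e3 + u 1 * e4

theorem exists_fourth : ∀ j k l : Fin 4, ∃ i : Fin 4, i ≠ j ∧ i ≠ k ∧ i ≠ l := by decide

/-- QM-SM2. -/
theorem sm2 (hBR : S_BR) : S_SM2 := by
  intro a hS j k l hjk hjl hkl
  by_contra hcon
  push Not at hcon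
  obtain ⟨i, hij, hik, hil⟩ := exists_fourth j k l
  have hinj : Function.Injective (![i, j, k, l] : Fin 4 → Fin 4) := by
    intro x y hxy
    fin_cases x <;> fin_cases y <;> simp at hxy ⊢ <;>
      first
        | exact hij hxy
        | exact hij hxy.symm
        | exact hik hxy
        | exact hik hxy.symm
        | exact hil hxy
        | exact hil hxy.symm
        | exact hjk hxy
        | exact hjk hxy.symm
        | exact hjl hxy
        | exact hjl hxy.symm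
        | exact hkl hxy
        | exact hkl hxy.symm
  set σ : Equiv.Perm (Fin 4) := Equiv.ofBijective _ (Finite.injective_iff_bijective.1 hinj)
    with hσ
  have s0 : σ 0 = i := rfl
  have s1 : σ 1 = j := rfl
  have s2 : σ 2 = k := rfl
  have s3 : σ 3 = l := rfl
  set b : Fin 2 → Fin 2 → Fin 2 → Fin 2 → ℂ := fun i j k l => (cu a σ i j k l : ℂ) with hb
  have hqf : ∀ P : Fin 4 → Fin 2 → ℂ, qf a P = cf b (P i) (P j) (P k) (P l) := fun P =>
    hBR ℂ a σ P
  have hma : ∀ (P : Fin 4 → Fin 2 → ℂ) (u v : Fin 2), ma a k l P u v = mt b (P i) (P j) u v := by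
    intro P u v
    unfold ma
    rw [hqf, Function.update_of_ne hil, Function.update_of_ne hik, Function.update_of_ne hjl,
      Function.update_of_ne hjk, Function.update_of_ne hkl, Function.update_self,
      Function.update_self, cf_bv]
  have hdt : ∀ P : Fin 4 → Fin 2 → ℂ, dt a k l P = DD b (P i) (P j) := by
    intro P
    unfold dt DD
    rw [hma, hma, hma, hma]
  have hdisc : ∀ p : Fin 2 → ℂ, Bq b p ^ 2 - 4 * DD b p (bv 0) * DD b p (bv 1) = 0 := by
    intro p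
    have h := hcon (fun _ => p)
    unfold disc at h
    rw [hdt, hdt, hdt, Function.update_of_ne hij, Function.update_of_ne hij,
      Function.update_of_ne hij, Function.update_self, Function.update_self,
      Function.update_self] at h
    exact h
  obtain ⟨p, q, r, s, hp, hq, hr, hs, f1, f2, f3, f4⟩ := core b hdisc
  set P : Fin 4 → Fin 2 → ℂ := fun m => (![p, q, r, s] : Fin 4 → Fin 2 → ℂ) (σ.symm m) with hP
  have Pi' : P i = p := by
    rw [hP, ← s0]
    simp only [Equiv.symm_apply_apply]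
    rfl
  have Pj' : P j = q := by
    rw [hP, ← s1]
    simp only [Equiv.symm_apply_apply]
    rfl
  have Pk' : P k = r := by
    rw [hP, ← s2]
    simp only [Equiv.symm_apply_apply]
    rfl
  have Pl' : P l = s := by
    rw [hP, ← s3]
    simp only [Equiv.symm_apply_apply]
    rfl
  have hall : ∀ m : Fin 4, m = i ∨ m = j ∨ m = k ∨ m = l := by
    intro m
    obtain ⟨n, hn⟩ := σ.surjective m
    rw [← hn]
    fin_cases n
    · exact Or.inl s0
    · exact Or.inr (Or.inl s1)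
    · exact Or.inr (Or.inr (Or.inl s2))
    · exact Or.inr (Or.inr (Or.inr s3))
  have hPne : ∀ m, P m ≠ 0 := by
    intro m
    rcases hall m with h | h | h | h <;> rw [h]
    · rw [Pi']; exact hp
    · rw [Pj']; exact hq
    · rw [Pk']; exact hr
    · rw [Pl']; exact hs
  obtain ⟨m, v, hv⟩ := hS P hPne (by rw [hqf, Pi', Pj', Pk', Pl']; exact f1 p)
  apply hv
  rw [hqf]
  rcases hall m with h | h | h | h <;> subst h
  · rw [Function.update_self, Function.update_of_ne hij.symm, Function.update_of_ne hik.symm,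
      Function.update_of_ne hil.symm, Pj', Pk', Pl']
    exact f1 v
  · rw [Function.update_self, Function.update_of_ne hij, Function.update_of_ne hjk.symm,
      Function.update_of_ne hjl.symm, Pi', Pk', Pl']
    exact f2 v
  · rw [Function.update_self, Function.update_of_ne hik, Function.update_of_ne hjk,
      Function.update_of_ne hkl.symm, Pi', Pj', Pl']
    exact f3 v
  · rw [Function.update_self, Function.update_of_ne hil, Function.update_of_ne hjl,
      Function.update_of_ne hkl, Pi', Pj', Pk']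
    exact f4 v

end Pool.Agent.W397.QM
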